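import Mathlib
import Pool.Agent.H21.UE.Defs
import Pool.Agent.H21.UE.Basic

/-!
# EVAL: the auxiliary polynomial vanishes to high order at all small grid points
-/

open MvPolynomial NumberField

namespace Pool.Agent.H21.UE

universe u

section EVALaux

variable {m : ℕ} {ι : Type} [Fintype ι]

theorem EV_prod_pow_block {S : Type*} [CommMonoid S] (J : Fin m × ι →₀ ℕ) (r : Fin m → ℕ)
    (hJ : ∀ h, ∑ i, J (h, i) = r h) (d : S) : ∏ q, d ^ J q = d ^ (∑ h, r h) := by
  rw [Finset.prod_pow_eq_pow_sum, Fintype.sum_prod_type]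
  congr 1
  exact Finset.sum_congr rfl fun h _ => hJ h

theorem EV_aeval_smul {S : Type*} [CommRing S] [Algebra ℤ S] (P : MvPolynomial (Fin m × ι) ℤ) (r : Fin m → ℕ)
    (hP : ∀ J ∈ P.support, ∀ h, ∑ i, J (h, i) = r h) (d : S) (f : Fin m × ι → S) :
    aeval (fun q => d * f q) P = d ^ (∑ h, r h) * aeval f P := by
  rw [aeval_def, aeval_def, eval₂_eq', eval₂_eq', Finset.mul_sum]
  refine Finset.sum_congr rfl fun J hJ => ?_
  simp_rw [mul_pow]
  rw [Finset.prod_mul_distrib, EV_prod_pow_block J r (hP J hJ)]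
  ring

theorem EV_map_aeval {S T : Type*} [CommRing S] [CommRing T] [Algebra ℤ S] [Algebra ℤ T]
    (ψ : S →+* T) {κ : Type*}
    (f : κ → S) (P : MvPolynomial κ ℤ) : ψ (aeval f P) = aeval (fun q => ψ (f q)) P :=
  MvPolynomial.comp_aeval_apply (R := ℤ) f { ψ with commutes' := fun x => by simp } P

theorem EV_aeval_subst {S : Type*} [CommRing S] [Algebra ℤ S] (A : Matrix ι ι ℤ)
    (P : MvPolynomial (Fin m × ι) ℤ) (g : Fin m × ι → S) :
    aeval g (subst A P) = aeval (fun q => ∑ j, (A q.2 j : S) * g (q.1, j)) P := by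
  rw [subst, MvPolynomial.comp_aeval_apply]
  congr 1
  congr 1
  funext q
  rw [map_sum]
  refine Finset.sum_congr rfl fun j _ => ?_
  rw [map_mul, aeval_C, aeval_X]
  simp

variable [DecidableEq ι]

theorem EV_identity {S : Type*} [CommRing S] [Algebra ℤ S] (A : Matrix ι ι ℤ)
    (P : MvPolynomial (Fin m × ι) ℤ) (r : Fin m → ℕ)
    (hP : ∀ J ∈ P.support, ∀ h, ∑ i, J (h, i) = r h) (f : Fin m × ι → S) :
    aeval (fun q => ∑ j, (A q.2 j : S) * f (q.1, j)) (subst A.adjugate P) =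
      (A.det : S) ^ (∑ h, r h) * aeval f P := by
  rw [EV_aeval_subst, ← EV_aeval_smul P r hP]
  congr 1
  congr 1
  funext q
  obtain ⟨h, i⟩ := q
  simp only
  have key : ∀ k, ∑ j, A.adjugate i j * A j k = if i = k then A.det else 0 := by
    intro k
    have := congrFun (congrFun (Matrix.adjugate_mul A) i) k
    rw [Matrix.mul_apply, Matrix.smul_apply, Matrix.one_apply] at this
    rw [this]
    split_ifs <;> simp
  calc ∑ j, (A.adjugate i j : S) * ∑ k, (A j k : S) * f (h, k)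
      = ∑ k, ((∑ j, A.adjugate i j * A j k : ℤ) : S) * f (h, k) := by
        simp_rw [Finset.mul_sum]
        rw [Finset.sum_comm]
        refine Finset.sum_congr rfl fun k _ => ?_
        push_cast
        rw [Finset.sum_mul]
        refine Finset.sum_congr rfl fun j _ => ?_
        ring
    _ = (A.det : S) * f (h, i) := by
        simp_rw [key]
        rw [Finset.sum_eq_single i]
        · simp
        · intro k _ hk
          rw [if_neg (Ne.symm hk)]
          simp
        · intro h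
          exact absurd (Finset.mem_univ i) h

omit [DecidableEq ι] in
theorem EV_l1_subst (A : Matrix ι ι ℤ) (P : MvPolynomial (Fin m × ι) ℤ) (r : Fin m → ℕ)
    (hP : ∀ J ∈ P.support, ∀ h, ∑ i, J (h, i) = r h) (α : ℝ)
    (hα : ∀ i, ∑ j, |(A i j : ℝ)| ≤ α) : l1 (subst A P) ≤ α ^ (∑ h, r h) * l1 P := by
  rw [subst]
  refine (l1_aeval_le _ (fun _ => α) (fun q => ?_) P).trans ?_
  · refine (l1_sum_le _ _).trans ((Finset.sum_le_sum fun j _ => ?_).trans (hα q.2))
    refine (l1_mul_le _ _).trans ?_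
    rw [l1_C, l1_X, mul_one]
  · rw [l1, Finset.mul_sum]
    refine Finset.sum_le_sum fun J hJ => ?_
    rw [EV_prod_pow_block J r (hP J hJ), mul_comm]

omit [DecidableEq ι] in
/-- the estimate of the weighted norm of a substituted integer polynomial -/
theorem EV_wn_aeval {κ : Type*} [Fintype κ] (ϱ : κ → ℝ) (hϱ : ∀ i, 0 ≤ ϱ i)
    (ell : κ → MvPolynomial κ ℂ) (P : MvPolynomial κ ℤ) (s : κ → ℝ)
    (hs : ∀ q, wn ϱ (ell q) ≤ Real.exp (s q)) (M : ℝ)
    (hM : ∀ J ∈ P.support, ∑ q, (J q : ℝ) * s q ≤ M) :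
    wn ϱ (aeval ell P) ≤ l1 P * Real.exp M := by
  have h1 : aeval ell P = aeval ell (map (Int.castRingHom ℂ) P) := by
    rw [← MvPolynomial.aeval_map_algebraMap ℂ ell P]
    rfl
  rw [h1]
  refine (wn_aeval_le hϱ ell _).trans ?_
  have hsup : (map (Int.castRingHom ℂ) P).support = P.support :=
    support_map_of_injective P (RingHom.injective_int _)
  rw [wn, hsup, l1, Finset.sum_mul]
  refine Finset.sum_le_sum fun J hJ => ?_
  have h2 : ‖coeff J (map (Int.castRingHom ℂ) P)‖ = |((P.coeff J : ℤ) : ℝ)| := by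
    simp [coeff_map]
  rw [h2]
  refine mul_le_mul_of_nonneg_left ?_ (abs_nonneg _)
  calc ∏ q, wn ϱ (ell q) ^ J q ≤ ∏ q, Real.exp (s q) ^ J q :=
        Finset.prod_le_prod (fun q _ => pow_nonneg (wn_nonneg hϱ _) _)
          fun q _ => pow_le_pow_left₀ (wn_nonneg hϱ _) (hs q) _
    _ = Real.exp (∑ q, (J q : ℝ) * s q) := by
        rw [Real.exp_sum]
        refine Finset.prod_congr rfl fun q _ => ?_
        rw [← Real.exp_nat_mul]
    _ ≤ Real.exp M := Real.exp_le_exp.2 (hM J hJ)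

omit [Fintype ι] [DecidableEq ι] in
theorem EV_good (r : Fin m → ℕ) (Q : Fin m → ℝ) (R ε : ℝ) (hR : 0 < R) (hr : ∀ h, 1 ≤ r h)
    (hε : 0 < ε) (hε1 : ε ≤ 1)
    (hRQ : ∀ h, R ≤ r h * Real.log (Q h) ∧ r h * Real.log (Q h) ≤ (1 + ε) * R)
    (a : Fin m → ℕ) (n : ℕ) (hn : 1 ≤ n) (ha : |∑ h, (a h : ℝ) / r h - m / n| ≤ ε * m) :
    |∑ h, (a h : ℝ) * Real.log (Q h) - R * m / n| ≤ 3 * ε * R * m := by
  have hr' : ∀ h, (0 : ℝ) < r h := fun h => by exact_mod_cast hr h
  have e1 : ∑ h, (a h : ℝ) * Real.log (Q h) =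
      ∑ h, (a h : ℝ) / r h * (r h * Real.log (Q h)) := by
    refine Finset.sum_congr rfl fun h _ => ?_
    have := (hr' h).ne'
    field_simp
  have hlo : R * ∑ h, (a h : ℝ) / r h ≤ ∑ h, (a h : ℝ) * Real.log (Q h) := by
    rw [e1, Finset.mul_sum]
    refine Finset.sum_le_sum fun h _ => ?_
    rw [mul_comm R]
    exact mul_le_mul_of_nonneg_left (hRQ h).1 (by positivity)
  have hhi : ∑ h, (a h : ℝ) * Real.log (Q h) ≤ (1 + ε) * R * ∑ h, (a h : ℝ) / r h := by
    rw [e1, Finset.mul_sum]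
    refine Finset.sum_le_sum fun h _ => ?_
    rw [mul_comm ((1 + ε) * R)]
    exact mul_le_mul_of_nonneg_left (hRQ h).2 (by positivity)
  set S := ∑ h, (a h : ℝ) / r h with hS
  rw [abs_le] at ha ⊢
  have hn' : (1 : ℝ) ≤ n := by exact_mod_cast hn
  have hm : (0 : ℝ) ≤ m := Nat.cast_nonneg m
  have hmn : (m : ℝ) / n ≤ m := div_le_self hm hn'
  have hmn0 : 0 ≤ (m : ℝ) / n := by positivity
  have e2 : R * m / n = R * (m / n) := by ring
  rw [e2]
  have hεRm : 0 ≤ ε * R * m := by positivity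
  constructor
  · have h1 : R * (m / n - ε * m) ≤ R * S := mul_le_mul_of_nonneg_left (by linarith [ha.1]) hR.le
    nlinarith [h1, hlo, hεRm]
  · have h1 : (1 + ε) * R * S ≤ (1 + ε) * R * (m / n + ε * m) :=
      mul_le_mul_of_nonneg_left (by linarith [ha.2]) (by positivity)
    have h2 : ε * R * (m / n) ≤ ε * R * m := mul_le_mul_of_nonneg_left hmn (by positivity)
    have h3 : ε * (ε * R * m) ≤ 1 * (ε * R * m) := mul_le_mul_of_nonneg_right hε1 hεRm
    nlinarith [h1, hhi, h2, h3]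

omit [DecidableEq ι] in
/-- the exponent estimate -/
theorem EV_expo (r : Fin m → ℕ) (Q : Fin m → ℝ) (R ε K : ℝ) (hR : 0 < R) (hr : ∀ h, 1 ≤ r h)
    (hε : 0 < ε) (hε1 : ε ≤ 1) (hK : 0 < K) (hKQ : ∀ h, K ≤ Real.log (Q h))
    (hRQ : ∀ h, R ≤ r h * Real.log (Q h) ∧ r h * Real.log (Q h) ≤ (1 + ε) * R)
    (J : Fin m × ι →₀ ℕ) (hn : 1 ≤ Fintype.card ι)
    (hJ : ∀ i, |∑ h, (J (h, i) : ℝ) / r h - m / Fintype.card ι| ≤ ε * m)
    (e : ℝ) (he : 0 ≤ e) (t : ι → ℝ) :
    ∑ q, (J q : ℝ) * (e + t q.2 * Real.log (Q q.1)) ≤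
      4 * Fintype.card ι * R * m * e / K + R * m / Fintype.card ι * ∑ i, t i +
        3 * ε * R * m * ∑ i, |t i| := by
  set n := Fintype.card ι with hnn
  have hgood : ∀ i, |∑ h, (J (h, i) : ℝ) * Real.log (Q h) - R * m / n| ≤ 3 * ε * R * m :=
    fun i => EV_good r Q R ε hR hr hε hε1 hRQ (fun h => J (h, i)) n hn (hJ i)
  have hn' : (1 : ℝ) ≤ n := by exact_mod_cast hn
  have hm : (0 : ℝ) ≤ m := Nat.cast_nonneg m
  have hTup : ∀ i, ∑ h, (J (h, i) : ℝ) * Real.log (Q h) ≤ 4 * R * m := by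
    intro i
    have h1 := (abs_le.1 (hgood i)).2
    have h2 : R * m / n ≤ R * m := div_le_self (by positivity) hn'
    have h3 : ε * (R * m) ≤ 1 * (R * m) := mul_le_mul_of_nonneg_right hε1 (by positivity)
    nlinarith
  have hcnt : ∀ i, ∑ h, (J (h, i) : ℝ) ≤ 4 * R * m / K := by
    intro i
    rw [le_div_iff₀ hK]
    refine le_trans ?_ (hTup i)
    rw [Finset.sum_mul]
    exact Finset.sum_le_sum fun h _ => mul_le_mul_of_nonneg_left (hKQ h) (Nat.cast_nonneg _)
  have e1 : ∑ q : Fin m × ι, (J q : ℝ) * (e + t q.2 * Real.log (Q q.1)) =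
      e * ∑ i, ∑ h, (J (h, i) : ℝ) + ∑ i, t i * ∑ h, (J (h, i) : ℝ) * Real.log (Q h) := by
    rw [Fintype.sum_prod_type_right, Finset.mul_sum, ← Finset.sum_add_distrib]
    refine Finset.sum_congr rfl fun i _ => ?_
    rw [Finset.mul_sum, Finset.mul_sum, ← Finset.sum_add_distrib]
    refine Finset.sum_congr rfl fun h _ => ?_
    ring
  rw [e1]
  have h1 : e * ∑ i, ∑ h, (J (h, i) : ℝ) ≤ 4 * n * R * m * e / K := by
    have : ∑ i, ∑ h, (J (h, i) : ℝ) ≤ n * (4 * R * m / K) := by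
      refine (Finset.sum_le_card_nsmul _ _ _ fun i _ => hcnt i).trans ?_
      rw [nsmul_eq_mul, Finset.card_univ]
    calc e * ∑ i, ∑ h, (J (h, i) : ℝ) ≤ e * (n * (4 * R * m / K)) :=
          mul_le_mul_of_nonneg_left this he
      _ = 4 * n * R * m * e / K := by ring
  have h2 : ∑ i, t i * ∑ h, (J (h, i) : ℝ) * Real.log (Q h) ≤
      R * m / n * ∑ i, t i + 3 * ε * R * m * ∑ i, |t i| := by
    rw [Finset.mul_sum, Finset.mul_sum, ← Finset.sum_add_distrib]
    refine Finset.sum_le_sum fun i _ => ?_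
    have h3 := hgood i
    have h4 : t i * (∑ h, (J (h, i) : ℝ) * Real.log (Q h) - R * m / n) ≤
        |t i| * (3 * ε * R * m) := by
      refine (le_abs_self _).trans ?_
      rw [abs_mul]
      exact mul_le_mul_of_nonneg_left h3 (abs_nonneg _)
    linarith
  linarith

set_option linter.unusedSectionVars false

section place

variable {L : Type u} [Field L] [NumberField L]

omit [DecidableEq ι] [NumberField L] in
/-- the polynomial in coordinates, after the Taylor shift -/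
theorem EV_tay_inCoord {S : Type*} [CommRing S] (σ : L →+* S) (z : Fin m → ι → ι → L)
    (g : Fin m × ι → ℕ) (P : MvPolynomial (Fin m × ι) ℤ) :
    map σ (tay (fun q => (g q : L)) (inCoord z P)) =
      aeval (fun q : Fin m × ι => ∑ l, C (σ (z q.1 l q.2)) * (X (q.1, l) + C ((g (q.1, l) : ℕ) : S)))
        P := by
  have h1 : tay (fun q => (g q : L)) (inCoord z P) =
      aeval (fun q : Fin m × ι => ∑ l, C (z q.1 l q.2) * (X (q.1, l) + C ((g (q.1, l) : ℕ) : L)))
        P := by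
    rw [tay, inCoord]
    have := EV_map_aeval (aeval (R := L) (fun i : Fin m × ι => X i + C ((g i : ℕ) : L)) :
      MvPolynomial (Fin m × ι) L →ₐ[L] MvPolynomial (Fin m × ι) L).toRingHom
      (fun q : Fin m × ι => ∑ i, C (z q.1 i q.2) * X (q.1, i)) P
    simp only [AlgHom.toRingHom_eq_coe, RingHom.coe_coe] at this
    rw [this]
    congr 1
    congr 1
    funext q
    rw [map_sum]
    refine Finset.sum_congr rfl fun l _ => ?_
    rw [map_mul, aeval_C, aeval_X]
    rfl
  rw [h1, EV_map_aeval]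
  congr 1
  congr 1
  funext q
  rw [map_sum]
  refine Finset.sum_congr rfl fun l _ => ?_
  simp

omit [DecidableEq ι] in
theorem EV_integral (z : Fin m → ι → ι → L) (hz : ∀ h i j, IsIntegral ℤ (z h i j))
    (g : Fin m × ι → ℕ) (P : MvPolynomial (Fin m × ι) ℤ) (J : Fin m × ι →₀ ℕ) :
    IsIntegral ℤ ((tay (fun q => (g q : L)) (inCoord z P)).coeff J) := by
  let z' : Fin m → ι → ι → 𝓞 L := fun h i j => ⟨z h i j, hz h i j⟩
  have h1 : tay (fun q => (g q : L)) (inCoord z P) =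
      map (algebraMap (𝓞 L) L) (aeval (fun q : Fin m × ι => ∑ l, C (z' q.1 l q.2) *
        (X (q.1, l) + C ((g (q.1, l) : ℕ) : 𝓞 L))) P) := by
    have h2 := EV_tay_inCoord (RingHom.id L) z g P
    rw [map_id] at h2
    rw [h2, EV_map_aeval]
    congr 1
    congr 1
    funext q
    rw [map_sum]
    refine Finset.sum_congr rfl fun l _ => ?_
    simp only [map_mul, map_add, map_C, map_X, map_natCast, RingHom.id_apply]
    rfl
  rw [h1, coeff_map]
  exact RingOfIntegers.isIntegral_coe _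

/-- the estimate at one place -/
theorem EV_place (B : InfinitePlace L → Matrix ι ι ℤ) (c : InfinitePlace L → ι → ℝ) (δ : ℝ)
    (v : InfinitePlace L) (hB : (B v).det ≠ 0) (β : ℝ) (hβ0 : 0 ≤ β)
    (hβ : ∀ i j, |(B v i j : ℝ)| ≤ β)
    (α : ℝ) (hα1 : 1 ≤ α) (hα : ∀ i, ∑ j, |((B v).adjugate i j : ℝ)| ≤ α)
    (c' : ℝ) (hc0 : 0 ≤ c') (hc' : ∀ i, |c v i - δ| ≤ c')
    (b : ℕ) (D : ℝ) (hD : 1 ≤ D) (hn : 1 ≤ Fintype.card ι)
    (r : Fin m → ℕ) (Q : Fin m → ℝ) (R ε K : ℝ) (hR : 0 < R) (hr : ∀ h, 1 ≤ r h)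
    (hε : 0 < ε) (hε1 : ε ≤ 1) (hK : 0 < K) (hKQ : ∀ h, K ≤ Real.log (Q h)) (hQ : ∀ h, 1 ≤ Q h)
    (hRQ : ∀ h, R ≤ r h * Real.log (Q h) ∧ r h * Real.log (Q h) ≤ (1 + ε) * R)
    (P : MvPolynomial (Fin m × ι) ℤ) (hP : ∀ J ∈ P.support, ∀ h, ∑ i, J (h, i) = r h)
    (hP1 : l1 P ≤ D ^ (∑ h, r h))
    (hPg : ∀ J ∈ (subst (B v).adjugate P).support, ∀ i : ι,
      |∑ h, (J (h, i) : ℝ) / r h - m / Fintype.card ι| ≤ ε * m)
    (j₀ : Fin m → ι) (z : Fin m → ι → ι → L) (hz0 : ∀ h, z h (j₀ h) = Pi.single (j₀ h) 1)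
    (hz : ∀ h i, i ≠ j₀ h → z h i ∈ SQ B c δ (Q h))
    (g : Fin m × ι → ℕ) (hg : ∀ q, g q < b) (hg0 : ∀ h, g (h, j₀ h) = 0)
    (J : Fin m × ι →₀ ℕ) (hJ : (∑ q, (J q : ℝ) / r q.1) < 2 * ε * m) :
    ‖v.embedding ((tay (fun q => (g q : L)) (inCoord z P)).coeff J)‖ ≤
      Real.exp (2 * R * m / K * Real.log (α * D) +
        4 * Fintype.card ι * R * m * Real.log (Fintype.card ι * (b + 1 + β)) / K +
        R * m / Fintype.card ι * ∑ i, (c v i - δ) + 3 * ε * R * m * ∑ i, |c v i - δ| +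
        4 * c' * ε * R * m) := by
  set n := Fintype.card ι with hnn
  have hn' : (1 : ℝ) ≤ n := by exact_mod_cast hn
  have hm : (0 : ℝ) ≤ m := Nat.cast_nonneg m
  have hb : (0 : ℝ) ≤ b := Nat.cast_nonneg b
  have hlQ : ∀ h, 0 ≤ Real.log (Q h) := fun h => Real.log_nonneg (hQ h)
  have hQpos : ∀ h, 0 < Q h := fun h => lt_of_lt_of_le one_pos (hQ h)
  set E : ℝ := n * (b + 1 + β) with hE
  have hE1 : 1 ≤ E := by
    rw [hE]
    nlinarith
  set e : ℝ := Real.log E with he
  have he0 : 0 ≤ e := Real.log_nonneg hE1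
  have hEe : E = Real.exp e := (Real.exp_log (by linarith)).symm
  set t : ι → ℝ := fun i => c v i - δ with ht
  -- the weights
  let ϱ : Fin m × ι → ℝ := fun q => if q.2 = j₀ q.1 then Real.exp (-c' * Real.log (Q q.1)) else 1
  have hϱ0 : ∀ q, 0 ≤ ϱ q := by
    intro q
    simp only [ϱ]
    split_ifs
    · exact (Real.exp_pos _).le
    · exact zero_le_one
  have hϱlow : ∀ q, Real.exp (-c' * Real.log (Q q.1)) ≤ ϱ q := by
    intro q
    simp only [ϱ]
    split_ifs
    · exact le_rfl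
    · rw [Real.exp_le_one_iff]
      nlinarith [mul_nonneg hc0 (hlQ q.1)]
  set σ := v.embedding with hσ
  let f : Fin m × ι → MvPolynomial (Fin m × ι) ℂ :=
    fun q => ∑ l, C (σ (z q.1 l q.2)) * (X (q.1, l) + C ((g (q.1, l) : ℕ) : ℂ))
  let ell : Fin m × ι → MvPolynomial (Fin m × ι) ℂ :=
    fun q => ∑ j, ((B v q.2 j : ℤ) : MvPolynomial (Fin m × ι) ℂ) * f (q.1, j)
  have hell : ∀ q, ell q = ∑ l, C (lf B v q.2 (z q.1 l)) *
      (X (q.1, l) + C ((g (q.1, l) : ℕ) : ℂ)) := by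
    intro q
    simp only [ell, f, lf]
    simp_rw [Finset.mul_sum]
    rw [Finset.sum_comm]
    refine Finset.sum_congr rfl fun l _ => ?_
    rw [map_sum, Finset.sum_mul]
    refine Finset.sum_congr rfl fun j _ => ?_
    rw [map_mul]
    have : (C ((B v q.2 j : ℤ) : ℂ) : MvPolynomial (Fin m × ι) ℂ) =
        ((B v q.2 j : ℤ) : MvPolynomial (Fin m × ι) ℂ) := map_intCast _ _
    rw [this]
    ring
  have hwn : ∀ q, wn ϱ (ell q) ≤ Real.exp (e + t q.2 * Real.log (Q q.1)) := by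
    intro q
    obtain ⟨h, i⟩ := q
    rw [hell]
    refine (wn_sum_le hϱ0 _ _).trans ?_
    have hterm : ∀ l, wn ϱ (C (lf B v i (z h l)) * (X (h, l) + C ((g (h, l) : ℕ) : ℂ))) ≤
        (b + 1 + β) * Real.exp (t i * Real.log (Q h)) := by
      intro l
      refine (wn_C_mul_le hϱ0 _ _).trans ?_
      have hw1 : wn ϱ (X (h, l) + C ((g (h, l) : ℕ) : ℂ)) ≤ ϱ (h, l) + g (h, l) := by
        refine (wn_add_le hϱ0 _ _).trans ?_
        rw [wn_X, wn_C]
        simp
      by_cases hl : l = j₀ h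
      · have h1 : ‖lf B v i (z h l)‖ ≤ β := by
          rw [hl, hz0, lf, Finset.sum_eq_single (j₀ h)]
          · rw [Pi.single_eq_same, map_one, mul_one]
            have := hβ i (j₀ h)
            simpa using this
          · intro j _ hj
            rw [Pi.single_eq_of_ne hj, map_zero, mul_zero]
          · intro hh
            exact absurd (Finset.mem_univ _) hh
        have h2 : ϱ (h, l) + g (h, l) ≤ Real.exp (t i * Real.log (Q h)) := by
          rw [hl, hg0 h]
          simp only [ϱ, if_true]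
          rw [Nat.cast_zero, add_zero, Real.exp_le_exp]
          have h3 := (abs_le.1 (hc' i)).1
          exact mul_le_mul_of_nonneg_right (by simpa [t] using h3) (hlQ h)
        calc ‖lf B v i (z h l)‖ * wn ϱ (X (h, l) + C ((g (h, l) : ℕ) : ℂ))
            ≤ β * Real.exp (t i * Real.log (Q h)) :=
              mul_le_mul h1 (hw1.trans h2) (wn_nonneg hϱ0 _) hβ0
          _ ≤ (b + 1 + β) * Real.exp (t i * Real.log (Q h)) :=
              mul_le_mul_of_nonneg_right (by linarith) (Real.exp_pos _).le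
      · have h1 : ‖lf B v i (z h l)‖ ≤ Real.exp (t i * Real.log (Q h)) := by
          have := (hz h l hl).2 v i
          rwa [Real.rpow_def_of_pos (hQpos h), mul_comm] at this
        have h2 : ϱ (h, l) + g (h, l) ≤ b + 1 := by
          have h3 : ϱ (h, l) = 1 := by
            simp only [ϱ, if_neg hl]
          have h4 : (g (h, l) : ℝ) ≤ b := by exact_mod_cast (hg (h, l)).le
          linarith
        calc ‖lf B v i (z h l)‖ * wn ϱ (X (h, l) + C ((g (h, l) : ℕ) : ℂ))
            ≤ Real.exp (t i * Real.log (Q h)) * (b + 1) :=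
              mul_le_mul h1 (hw1.trans h2) (wn_nonneg hϱ0 _) (Real.exp_pos _).le
          _ ≤ (b + 1 + β) * Real.exp (t i * Real.log (Q h)) := by
              rw [mul_comm]
              exact mul_le_mul_of_nonneg_right (by linarith) (Real.exp_pos _).le
    refine (Finset.sum_le_card_nsmul _ _ _ fun l _ => hterm l).trans ?_
    rw [nsmul_eq_mul, Finset.card_univ, Real.exp_add, ← hEe, hE]
    exact le_of_eq (by ring)
  -- the main inequality
  set aJ := (tay (fun q => (g q : L)) (inCoord z P)).coeff J with haJ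
  have hid := EV_identity (B v) P r hP f
  have hmap : map σ (tay (fun q => (g q : L)) (inCoord z P)) = aeval f P :=
    EV_tay_inCoord σ z g P
  have hcoef : (((B v).det : ℤ) : ℂ) ^ (∑ h, r h) * σ aJ =
      (aeval ell (subst (B v).adjugate P)).coeff J := by
    have h1 : aeval ell (subst (B v).adjugate P) =
        C ((((B v).det : ℤ) : ℂ) ^ (∑ h, r h)) * aeval f P := by
      refine hid.trans ?_
      rw [map_pow]
      congr 2
    rw [h1, coeff_C_mul, ← hmap, coeff_map]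
  have hdet : 1 ≤ ‖(((B v).det : ℤ) : ℂ) ^ (∑ h, r h)‖ := by
    rw [norm_pow]
    refine one_le_pow₀ ?_
    rw [Complex.norm_intCast]
    exact_mod_cast Int.one_le_abs hB
  have h1 : ‖σ aJ‖ ≤ ‖(aeval ell (subst (B v).adjugate P)).coeff J‖ := by
    rw [← hcoef, norm_mul]
    exact le_mul_of_one_le_left (norm_nonneg _) hdet
  set M : ℝ := 4 * n * R * m * e / K + R * m / n * ∑ i, t i + 3 * ε * R * m * ∑ i, |t i| with hM
  have h2 : wn ϱ (aeval ell (subst (B v).adjugate P)) ≤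
      l1 (subst (B v).adjugate P) * Real.exp M := by
    refine EV_wn_aeval ϱ hϱ0 ell _ (fun q => e + t q.2 * Real.log (Q q.1)) hwn M ?_
    intro J' hJ'
    exact EV_expo r Q R ε K hR hr hε hε1 hK hKQ hRQ J' hn (hPg J' hJ') e he0 t
  have hprod : Real.exp (-(4 * c' * ε * R * m)) ≤ ∏ q, ϱ q ^ J q := by
    have h3 : ∏ q, Real.exp (-c' * Real.log (Q q.1)) ^ J q ≤ ∏ q, ϱ q ^ J q :=
      Finset.prod_le_prod (fun q _ => pow_nonneg (Real.exp_pos _).le _)
        fun q _ => pow_le_pow_left₀ (Real.exp_pos _).le (hϱlow q) _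
    refine le_trans ?_ h3
    have h4 : ∏ q : Fin m × ι, Real.exp (-c' * Real.log (Q q.1)) ^ J q =
        Real.exp (-c' * ∑ q : Fin m × ι, (J q : ℝ) * Real.log (Q q.1)) := by
      rw [Finset.mul_sum, Real.exp_sum]
      refine Finset.prod_congr rfl fun q _ => ?_
      rw [← Real.exp_nat_mul]
      congr 1
      ring
    rw [h4, Real.exp_le_exp]
    have h5 : ∑ q : Fin m × ι, (J q : ℝ) * Real.log (Q q.1) ≤ 4 * ε * R * m := by
      calc ∑ q : Fin m × ι, (J q : ℝ) * Real.log (Q q.1)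
          ≤ ∑ q : Fin m × ι, (J q : ℝ) / r q.1 * ((1 + ε) * R) := by
            refine Finset.sum_le_sum fun q _ => ?_
            have hr' : (0 : ℝ) < r q.1 := by exact_mod_cast hr q.1
            have : (J q : ℝ) * Real.log (Q q.1) =
                (J q : ℝ) / r q.1 * (r q.1 * Real.log (Q q.1)) := by
              field_simp
            rw [this]
            exact mul_le_mul_of_nonneg_left (hRQ q.1).2 (by positivity)
        _ = (∑ q : Fin m × ι, (J q : ℝ) / r q.1) * ((1 + ε) * R) := by rw [Finset.sum_mul]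
        _ ≤ (2 * ε * m) * (2 * R) := by
            refine mul_le_mul hJ.le (by nlinarith) (by positivity) (by positivity)
        _ = 4 * ε * R * m := by ring
    nlinarith [mul_le_mul_of_nonneg_left h5 hc0]
  have h3 : ‖σ aJ‖ * Real.exp (-(4 * c' * ε * R * m)) ≤
      l1 (subst (B v).adjugate P) * Real.exp M := by
    calc ‖σ aJ‖ * Real.exp (-(4 * c' * ε * R * m))
        ≤ ‖(aeval ell (subst (B v).adjugate P)).coeff J‖ * ∏ q, ϱ q ^ J q :=
          mul_le_mul h1 hprod (Real.exp_pos _).le (norm_nonneg _)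
      _ ≤ wn ϱ (aeval ell (subst (B v).adjugate P)) := coeff_le_wn hϱ0 _ _
      _ ≤ _ := h2
  have hαD : 1 ≤ α * D := by nlinarith
  have hlαD : 0 ≤ Real.log (α * D) := Real.log_nonneg hαD
  have hl1 : l1 (subst (B v).adjugate P) ≤ Real.exp (2 * R * m / K * Real.log (α * D)) := by
    have h4 : l1 (subst (B v).adjugate P) ≤ (α * D) ^ (∑ h, r h) := by
      refine (EV_l1_subst _ P r hP α hα).trans ?_
      rw [mul_pow]
      exact mul_le_mul_of_nonneg_left hP1 (by positivity)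
    refine h4.trans ?_
    have h5 : (α * D) ^ (∑ h, r h) = Real.exp ((∑ h, r h : ℕ) * Real.log (α * D)) := by
      rw [Real.exp_nat_mul, Real.exp_log (by linarith)]
    rw [h5, Real.exp_le_exp]
    refine mul_le_mul_of_nonneg_right ?_ hlαD
    rw [le_div_iff₀ hK]
    push_cast
    rw [Finset.sum_mul]
    have h6 : ∀ h ∈ (Finset.univ : Finset (Fin m)), (r h : ℝ) * K ≤ 2 * R := by
      intro h _
      have h7 := (hRQ h).2
      have h8 : (r h : ℝ) * K ≤ r h * Real.log (Q h) :=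
        mul_le_mul_of_nonneg_left (hKQ h) (Nat.cast_nonneg _)
      nlinarith
    refine (Finset.sum_le_card_nsmul _ _ _ h6).trans ?_
    rw [nsmul_eq_mul, Finset.card_univ, Fintype.card_fin]
    exact le_of_eq (by ring)
  have h4 : ‖σ aJ‖ = (‖σ aJ‖ * Real.exp (-(4 * c' * ε * R * m))) *
      Real.exp (4 * c' * ε * R * m) := by
    rw [mul_assoc, ← Real.exp_add]
    simp
  rw [h4]
  calc (‖σ aJ‖ * Real.exp (-(4 * c' * ε * R * m))) * Real.exp (4 * c' * ε * R * m)
      ≤ (Real.exp (2 * R * m / K * Real.log (α * D)) * Real.exp M) *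
          Real.exp (4 * c' * ε * R * m) := by
        refine mul_le_mul_of_nonneg_right (h3.trans ?_) (Real.exp_pos _).le
        exact mul_le_mul_of_nonneg_right hl1 (Real.exp_pos _).le
    _ = _ := by
        rw [← Real.exp_add, ← Real.exp_add, hM]
        congr 1
        ring

end place

end EVALaux

theorem EV_norm_ge {L : Type u} [Field L] [NumberField L] (x : L) (hx : IsIntegral ℤ x)
    (hx0 : x ≠ 0) : 1 ≤ ∏ v : InfinitePlace L, v x ^ v.mult := by
  rw [InfinitePlace.prod_eq_abs_norm]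
  let y : 𝓞 L := ⟨x, hx⟩
  have hy : y ≠ 0 := by
    intro h
    apply hx0
    have := congrArg (algebraMap (𝓞 L) L) h
    rw [map_zero] at this
    exact this
  have h1 : Algebra.norm ℤ y ≠ 0 := Algebra.norm_ne_zero_iff.2 hy
  have h2 : ((Algebra.norm ℤ y : ℤ) : ℚ) = Algebra.norm ℚ x := Algebra.coe_norm_int y
  rw [← h2]
  have h3 := Int.one_le_abs h1
  exact_mod_cast h3

theorem EVAL : T_EVAL.{u} := by
  intro L _ _ ι _ _ B c δ hB hc hδ
  set n := Fintype.card ι with hn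
  obtain ⟨Dg, hDg⟩ : ∃ Dg : ℝ, Dg = Module.finrank ℚ L := ⟨_, rfl⟩
  have hDg0 : 0 < Dg := by
    rw [hDg]
    exact_mod_cast Module.finrank_pos
  have hmult : ∑ v : InfinitePlace L, (v.mult : ℝ) = Dg := by
    rw [hDg, ← InfinitePlace.sum_mult_eq (K := L)]
    push_cast
    rfl
  obtain ⟨c', hc0, hc'⟩ : ∃ c' : ℝ, 0 ≤ c' ∧ ∀ v i, |c v i - δ| ≤ c' := by
    refine ⟨∑ v, ∑ i, |c v i - δ|, by positivity, fun v i => ?_⟩
    refine le_trans ?_ (Finset.single_le_sum (f := fun v => ∑ i, |c v i - δ|)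
      (fun _ _ => by positivity) (Finset.mem_univ v))
    exact Finset.single_le_sum (f := fun i => |c v i - δ|) (fun _ _ => by positivity)
      (Finset.mem_univ i)
  obtain ⟨β, hβ0, hβ⟩ : ∃ β : ℝ, 0 ≤ β ∧ ∀ v i j, |(B v i j : ℝ)| ≤ β := by
    refine ⟨∑ v, ∑ i, ∑ j, |(B v i j : ℝ)|, by positivity, fun v i j => ?_⟩
    refine le_trans ?_ (Finset.single_le_sum (f := fun v => ∑ i, ∑ j, |(B v i j : ℝ)|)
      (fun _ _ => by positivity) (Finset.mem_univ v))
    refine le_trans ?_ (Finset.single_le_sum (f := fun i => ∑ j, |(B v i j : ℝ)|)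
      (fun _ _ => by positivity) (Finset.mem_univ i))
    exact Finset.single_le_sum (f := fun j => |(B v i j : ℝ)|) (fun _ _ => by positivity)
      (Finset.mem_univ j)
  obtain ⟨α, hα1, hα⟩ : ∃ α : ℝ, 1 ≤ α ∧ ∀ v i, ∑ j, |((B v).adjugate i j : ℝ)| ≤ α := by
    refine ⟨1 + ∑ v, ∑ i, ∑ j, |((B v).adjugate i j : ℝ)|, ?_, fun v i => ?_⟩
    · have : 0 ≤ ∑ v, ∑ i, ∑ j, |((B v).adjugate i j : ℝ)| := by positivity
      linarith
    · have h1 : ∑ j, |((B v).adjugate i j : ℝ)| ≤ ∑ v, ∑ i, ∑ j, |((B v).adjugate i j : ℝ)| := by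
        refine le_trans ?_ (Finset.single_le_sum
          (f := fun v => ∑ i, ∑ j, |((B v).adjugate i j : ℝ)|)
          (fun _ _ => by positivity) (Finset.mem_univ v))
        exact Finset.single_le_sum (f := fun i => ∑ j, |((B v).adjugate i j : ℝ)|)
          (fun _ _ => by positivity) (Finset.mem_univ i)
      linarith
  obtain ⟨S, hS⟩ : ∃ S : ℝ, S = ∑ v : InfinitePlace L, (v.mult : ℝ) * ∑ i, |c v i - δ| := ⟨_, rfl⟩
  have hS0 : 0 ≤ S := by
    rw [hS]
    positivity
  have hden : 0 < 4 * (3 * S + 4 * c' * Dg + 1) := by positivity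
  refine ⟨min 1 (Dg * δ / (4 * (3 * S + 4 * c' * Dg + 1))), lt_min one_pos (by positivity), ?_⟩
  intro ε hε hεε b D hD
  have hε1 : ε ≤ 1 := hεε.trans (min_le_left _ _)
  have hε2 : ε * (3 * S + 4 * c' * Dg) ≤ Dg * δ / 4 := by
    have h1 : ε * (4 * (3 * S + 4 * c' * Dg + 1)) ≤ Dg * δ := by
      rw [← le_div_iff₀ hden]
      exact hεε.trans (min_le_right _ _)
    nlinarith
  have hαD : 1 ≤ α * D := by nlinarith
  have hlαD : 0 ≤ Real.log (α * D) := Real.log_nonneg hαD
  obtain ⟨W, hW⟩ : ∃ W : ℝ, W = Dg * (2 * Real.log (α * D) +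
    4 * n * |Real.log (n * (b + 1 + β))|) := ⟨_, rfl⟩
  have hW0 : 0 ≤ W := by
    rw [hW]
    positivity
  have hKpos : 0 < 4 * (W + 1) / (Dg * δ) := by positivity
  refine ⟨4 * (W + 1) / (Dg * δ), hKpos, ?_⟩
  intro m r Q R hm hR hr hQ hKQ hRQ P hP hP1 hPg j₀ z hz0 hz g hg hg0 J hJ
  set K := 4 * (W + 1) / (Dg * δ) with hKdef
  have hWK : W / K ≤ Dg * δ / 4 := by
    rw [div_le_iff₀ hKpos, hKdef]
    have : Dg * δ / 4 * (4 * (W + 1) / (Dg * δ)) = W + 1 := by
      field_simp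
    rw [this]
    linarith
  have hm' : (1 : ℝ) ≤ m := by exact_mod_cast hm
  have hne : Nonempty ι := ⟨j₀ ⟨0, hm⟩⟩
  have hn1 : 1 ≤ n := Fintype.card_pos
  have hn1' : (1 : ℝ) ≤ n := by exact_mod_cast hn1
  by_contra hcon
  set aJ := (tay (fun q => (g q : L)) (inCoord z P)).coeff J with haJ
  have hint : IsIntegral ℤ aJ := by
    refine EV_integral z (fun h i j => ?_) g P J
    by_cases hi : i = j₀ h
    · rw [hi, hz0]
      by_cases hj : j = j₀ h
      · rw [hj, Pi.single_eq_same]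
        exact isIntegral_one
      · rw [Pi.single_eq_of_ne hj]
        exact isIntegral_zero
    · exact (hz h i hi).1 j
  have hge := EV_norm_ge aJ hint hcon
  obtain ⟨Y, hY⟩ : ∃ Y : InfinitePlace L → ℝ, Y = fun v =>
      (2 * R * m / K * Real.log (α * D) +
        4 * n * R * m * Real.log (n * (b + 1 + β)) / K +
        R * m / n * ∑ i, (c v i - δ) + 3 * ε * R * m * ∑ i, |c v i - δ| +
        4 * c' * ε * R * m) := ⟨_, rfl⟩
  have hplace : ∀ v : InfinitePlace L, v aJ ≤ Real.exp (Y v) := by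
    intro v
    rw [← InfinitePlace.norm_embedding_eq, hY]
    exact EV_place B c δ v (hB v) β hβ0 (hβ v) α hα1 (hα v) c' hc0 (hc' v) b D hD hn1 r Q R ε K
      hR hr hε hε1 hKpos hKQ hQ hRQ P hP hP1 (hPg v) j₀ z hz0 hz g hg hg0 J hJ
  have hprod : ∏ v : InfinitePlace L, v aJ ^ v.mult ≤
      Real.exp (∑ v : InfinitePlace L, (v.mult : ℝ) * Y v) := by
    rw [Real.exp_sum]
    refine Finset.prod_le_prod (fun v _ => pow_nonneg (apply_nonneg v aJ) _) fun v _ => ?_
    rw [Real.exp_nat_mul]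
    exact pow_le_pow_left₀ (apply_nonneg v aJ) (hplace v) _
  have hneg : ∑ v : InfinitePlace L, (v.mult : ℝ) * Y v < 0 := by
    have h1 : ∑ v : InfinitePlace L, (v.mult : ℝ) * Y v =
        Dg * (2 * R * m / K * Real.log (α * D) +
          4 * n * R * m * Real.log (n * (b + 1 + β)) / K + 4 * c' * ε * R * m) +
        R * m / n * (∑ v : InfinitePlace L, (v.mult : ℝ) * ∑ i, (c v i - δ)) +
        3 * ε * R * m * S := by
      rw [hS, ← hmult, Finset.sum_mul, Finset.mul_sum, Finset.mul_sum, ← Finset.sum_add_distrib,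
        ← Finset.sum_add_distrib]
      refine Finset.sum_congr rfl fun v _ => ?_
      rw [hY]
      ring
    have h2 : ∑ v : InfinitePlace L, (v.mult : ℝ) * ∑ i, (c v i - δ) = - (n * δ * Dg) := by
      have h3 : ∀ v : InfinitePlace L, (v.mult : ℝ) * ∑ i, (c v i - δ) =
          ∑ i, (v.mult : ℝ) * c v i - v.mult * (n * δ) := by
        intro v
        rw [Finset.sum_sub_distrib, Finset.sum_const, Finset.card_univ, nsmul_eq_mul, mul_sub,
          Finset.mul_sum]
      rw [Finset.sum_congr rfl fun v _ => h3 v, Finset.sum_sub_distrib, hc, ← Finset.sum_mul,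
        hmult]
      ring
    have h4 : Real.log (n * (b + 1 + β)) ≤ |Real.log (n * (b + 1 + β))| := le_abs_self _
    have h5 : Dg * (2 * R * m / K * Real.log (α * D) +
          4 * n * R * m * Real.log (n * (b + 1 + β)) / K) ≤ R * m * (W / K) := by
      rw [hW]
      have h6 : 4 * n * R * m * Real.log (n * (b + 1 + β)) / K ≤
          4 * n * R * m * |Real.log (n * (b + 1 + β))| / K := by
        gcongr
      calc Dg * (2 * R * m / K * Real.log (α * D) +
          4 * n * R * m * Real.log (n * (b + 1 + β)) / K)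
          ≤ Dg * (2 * R * m / K * Real.log (α * D) +
          4 * n * R * m * |Real.log (n * (b + 1 + β))| / K) := by
            gcongr
        _ = _ := by ring
    have hRm : 0 < R * m := by positivity
    rw [h1, h2]
    have h7 : R * m / n * -(n * δ * Dg) = - (R * m * (δ * Dg)) := by
      field_simp
    rw [h7]
    have h8 : R * m * (W / K) ≤ R * m * (Dg * δ / 4) := mul_le_mul_of_nonneg_left hWK hRm.le
    have h9 : R * m * (ε * (3 * S + 4 * c' * Dg)) ≤ R * m * (Dg * δ / 4) :=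
      mul_le_mul_of_nonneg_left hε2 hRm.le
    have h10 : 0 < R * m * (Dg * δ) := by positivity
    nlinarith
  have : Real.exp (∑ v : InfinitePlace L, (v.mult : ℝ) * Y v) < 1 := by
    rw [Real.exp_lt_one_iff]
    exact hneg
  linarith

end Pool.Agent.H21.UE
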